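import Pool.Agent.W619.Y.Stm

/-! The logarithmic estimate at a place, with a generator of the inertia group. -/

set_option autoImplicit false
set_option linter.overlappingInstances false
set_option linter.unusedSectionVars false

universe u v

open FF IntermediateField Pool.Agent.W619.PQ Pool.Agent.W619.PL Pool.Agent.W619.TW
  Pool.Agent.W603.LV Pool.Agent.W619.Y

namespace Pool.Agent.W391.PG.REGLOG

section

variable {k : Type v} {L : Type u} [Field k] [Field L] [Algebra k L] {n : ℕ}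

/-- `h` acts on the associated graded ring by the character `ζ ^ ord`. -/
def IsChar (w : Place k L) (h : L ≃ₐ[k] L) (ζ : k) : Prop :=
  ∀ z : L, z ≠ 0 → Ge w (w.ord z + 1) (h z - algebraMap k L (ζ ^ (w.ord z)) * z)

theorem IsChar.ord_eq {w : Place k L} {h : L ≃ₐ[k] L} {ζ : k} (hζ : ζ ≠ 0)
    (hc : IsChar w h ζ) (z : L) : w.ord (h z) = w.ord z := by
  by_cases hz : z = 0
  · rw [hz, map_zero]
  have hζz : ζ ^ (w.ord z) ≠ 0 := zpow_ne_zero _ hζ
  have hc0 : algebraMap k L (ζ ^ (w.ord z)) ≠ 0 := (map_ne_zero _).2 hζz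
  have hcz : algebraMap k L (ζ ^ (w.ord z)) * z ≠ 0 := mul_ne_zero hc0 hz
  have h1 : w.ord (algebraMap k L (ζ ^ (w.ord z)) * z) = w.ord z := by
    rw [w.ord_mul hc0 hz, w.ord_const hζz, zero_add]
  by_cases h3 : h z - algebraMap k L (ζ ^ (w.ord z)) * z = 0
  · rw [sub_eq_zero.1 h3, h1]
  · have h2 := (hc z hz).resolve_left h3
    have h4 := w.ord_add_eq hcz h3 (by rw [h1]; omega)
    rw [add_sub_cancel] at h4
    rw [h4.2, h1]

theorem IsChar.pow {w : Place k L} {h : L ≃ₐ[k] L} {ζ : k} (hζ : ζ ≠ 0)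
    (hc : IsChar w h ζ) (r : ℕ) : IsChar w (h ^ r) (ζ ^ r) := by
  induction r with
  | zero =>
    intro z hz
    left
    rw [pow_zero, pow_zero, one_zpow, map_one, one_mul]
    exact sub_self z
  | succ r ih =>
    intro z hz
    have h1 := ih z hz
    have hord : w.ord ((h ^ r) z) = w.ord z := IsChar.ord_eq (pow_ne_zero _ hζ) ih z
    have hy0 : (h ^ r) z ≠ 0 := (map_ne_zero_iff _ (h ^ r).injective).2 hz
    have h2 := hc _ hy0
    rw [hord] at h2
    have e : (h ^ (r + 1)) z = h ((h ^ r) z) := by rw [pow_succ']; rfl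
    have h3 : Ge w (w.ord z + 1) (algebraMap k L (ζ ^ (w.ord z)) *
        ((h ^ r) z - algebraMap k L ((ζ ^ r) ^ (w.ord z)) * z)) := by
      have := (Ge.const (P := w) (ζ ^ (w.ord z))).mul h1
      rwa [zero_add] at this
    have h4 := h2.add h3
    have h5 : (h ^ (r + 1)) z - algebraMap k L ((ζ ^ (r + 1)) ^ (w.ord z)) * z =
        h ((h ^ r) z) - algebraMap k L (ζ ^ (w.ord z)) * (h ^ r) z +
        algebraMap k L (ζ ^ (w.ord z)) *
        ((h ^ r) z - algebraMap k L ((ζ ^ r) ^ (w.ord z)) * z) := by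
      rw [e, pow_succ, mul_zpow, map_mul]
      ring
    rw [h5]
    exact h4

theorem IsChar.eq {w : Place k L} {h : L ≃ₐ[k] L} {ζ : k} (hc : IsChar w h ζ) {c : k} {x : L}
    (hx : x ≠ 0) (hhx : h x = algebraMap k L c * x) : c = ζ ^ (w.ord x) := by
  have h1 := hc x hx
  rw [hhx, ← sub_mul, ← map_sub] at h1
  by_contra hcon
  have hne : c - ζ ^ (w.ord x) ≠ 0 := sub_ne_zero.2 hcon
  have hne' : algebraMap k L (c - ζ ^ (w.ord x)) ≠ 0 := (map_ne_zero _).2 hne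
  have h2 := h1.resolve_left (mul_ne_zero hne' hx)
  rw [w.ord_mul hne' hx, w.ord_const hne] at h2
  omega

theorem IsChar.dvd {w : Place k L} {h : L ≃ₐ[k] L} {ζ : k} {e : ℕ} (he : 0 < e)
    (hζ : IsPrimitiveRoot ζ e) (hc : IsChar w h ζ) (a : ℕ) (x : L) (hx : x ≠ 0)
    (hhx : h x = algebraMap k L (ζ ^ a) * x) : (e : ℤ) ∣ w.ord x - a := by
  have hζ0 : ζ ≠ 0 := hζ.ne_zero he.ne'
  have h1 := hc.eq hx hhx
  apply (hζ.zpow_eq_one_iff_dvd _).1
  rw [zpow_sub₀ hζ0, zpow_natCast, ← h1, div_self (pow_ne_zero _ hζ0)]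

theorem IsChar.le {w : Place k L} {h : L ≃ₐ[k] L} {ζ : k} {e : ℕ} (he : 0 < e)
    (hζ : IsPrimitiveRoot ζ e) (hc : IsChar w h ζ) {r : ℕ} (hr : 0 < r) {x : L}
    (hx : 0 < w.ord x) (hhx : (h ^ r) x = x) : (e : ℤ) ≤ r * w.ord x := by
  have hx0 : x ≠ 0 := by
    rintro rfl
    rw [w.ord_zero] at hx
    omega
  have hζ0 : ζ ≠ 0 := hζ.ne_zero he.ne'
  have h1 := (hc.pow hζ0 r).eq (c := 1) hx0 (by rw [map_one, one_mul, hhx])
  have h2 : (e : ℤ) ∣ r * w.ord x := by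
    apply (hζ.zpow_eq_one_iff_dvd _).1
    rw [zpow_mul, zpow_natCast, ← h1]
  exact Int.le_of_dvd (by positivity) h2

/-- `u` in `Q` is a uniformizer of `w` restricted to `Q`. -/
def IsUnif (w : Place k L) (Q : IntermediateField k L) (u : L) : Prop :=
  0 < w.ord u ∧ ∀ z ∈ Q, z ≠ 0 → w.ord u ∣ w.ord z

theorem exists_unif (w : Place k L) (Q : IntermediateField k L) (h : ∃ y ∈ Q, w.ord y ≠ 0) :
    ∃ u ∈ Q, IsUnif w Q u := by
  obtain ⟨y, hy, hy0⟩ := h
  obtain ⟨b, q, hq⟩ := exists_over (K := Q) w ⟨⟨y, hy⟩, hy0⟩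
  obtain ⟨t, ht0, ht⟩ := q.surj
  have h1 : w.ord (t : L) = b := by
    have := hq.2 t
    rw [ht, mul_one] at this
    exact this
  refine ⟨(t : L), t.2, ?_, ?_⟩
  · rw [h1]
    exact_mod_cast hq.1
  · intro z hz _
    rw [h1]
    exact ⟨q.ord ⟨z, hz⟩, hq.2 ⟨z, hz⟩⟩

theorem stb_le (G : Subgroup (L ≃ₐ[k] L)) (σ : G →* Equiv.Perm (Fin n)) (i : Fin n) :
    stb G σ i ≤ G := by
  rintro _ ⟨h, _, rfl⟩
  exact h.2

theorem quo_smul (G : Subgroup (L ≃ₐ[k] L)) (σ : G →* Equiv.Perm (Fin n))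
    (F : Fin n → IntermediateField k L)
    (hF : ∀ (g : G) i, ∀ z ∈ F i, (g : L ≃ₐ[k] L) z ∈ F (σ g i)) (g : G) (i : Fin n) (z : L)
    (hz : z ∈ Quo G σ F i) : (g : L ≃ₐ[k] L) z ∈ Quo G σ F (σ g i) := by
  obtain ⟨h1, h2⟩ := IntermediateField.mem_inf.1 hz
  refine IntermediateField.mem_inf.2 ⟨hF g i z h1, ?_⟩
  rw [mem_fixedField_iff] at h2 ⊢
  rintro _ ⟨s, hs, rfl⟩
  have h3 := h2 ((g⁻¹ * s * g : G) : L ≃ₐ[k] L) ⟨g⁻¹ * s * g, by
    rw [map_mul, map_mul, Equiv.Perm.mul_apply, Equiv.Perm.mul_apply, hs, ← Equiv.Perm.mul_apply,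
      ← map_mul, inv_mul_cancel, map_one]
    rfl, rfl⟩
  have h4 : (s : L ≃ₐ[k] L) ((g : L ≃ₐ[k] L) z) =
      (g : L ≃ₐ[k] L) (((g⁻¹ * s * g : G) : L ≃ₐ[k] L) z) := by
    have h5 : (s * g : G) = g * (g⁻¹ * s * g) := by group
    have h6 := congrArg (fun y : G => (y : L ≃ₐ[k] L) z) h5
    exact h6
  rw [h4, h3]

theorem fix_of_quo (G : Subgroup (L ≃ₐ[k] L)) (σ : G →* Equiv.Perm (Fin n))
    (F : Fin n → IntermediateField k L) (g : G) (i : Fin n) (z : L)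
    (hz : z ∈ Quo G σ F i) (hg : σ g i = i) : (g : L ≃ₐ[k] L) z = z := by
  obtain ⟨h1, h2⟩ := IntermediateField.mem_inf.1 hz
  rw [mem_fixedField_iff] at h2
  exact h2 _ ⟨g, hg, rfl⟩

open Polynomial in
theorem isIntegral_quo (G : Subgroup (L ≃ₐ[k] L)) [Finite G] (σ : G →* Equiv.Perm (Fin n))
    (F : Fin n → IntermediateField k L)
    (hF : ∀ (g : G) i, ∀ z ∈ F i, (g : L ≃ₐ[k] L) z ∈ F (σ g i)) (i : Fin n) (z : L)
    (hz : z ∈ F i) : IsIntegral (Quo G σ F i) z := by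
  classical
  have hfin : Finite (stb G σ i) :=
    Finite.of_injective (Subgroup.inclusion (stb_le G σ i)) (Subgroup.inclusion_injective _)
  let _ : Fintype (stb G σ i) := Fintype.ofFinite _
  let p : L[X] := MulSemiringAction.charpoly (stb G σ i) z
  have hmon : p.Monic := MulSemiringAction.monic_charpoly _ _
  have h1 : p ∈ lifts (algebraMap (F i) L) := by
    change MulSemiringAction.charpoly (stb G σ i) z ∈ _
    rw [MulSemiringAction.charpoly_eq]
    refine prod_mem fun g _ => ?_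
    rw [sub_eq_add_neg, ← C_neg]
    refine add_mem (X_mem_lifts _) (C'_mem_lifts ?_)
    obtain ⟨g', hg', hg2⟩ := g.2
    have h2 : (g • z : L) ∈ F i := by
      have h3 := hF g' i z hz
      rw [hg', hg2] at h3
      exact h3
    exact ⟨⟨-(g • z), neg_mem h2⟩, rfl⟩
  have h2 : p ∈ lifts (algebraMap (Quo G σ F i) L) := by
    rw [lifts_iff_coeff_lifts] at h1 ⊢
    intro j
    obtain ⟨c, hc⟩ := h1 j
    refine ⟨⟨p.coeff j, IntermediateField.mem_inf.2 ⟨hc ▸ c.2, ?_⟩⟩, rfl⟩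
    rw [mem_fixedField_iff]
    intro g hg
    exact MulSemiringAction.smul_coeff_charpoly z j (⟨g, hg⟩ : stb G σ i)
  obtain ⟨q, hq1, _, hq3⟩ := lifts_and_natDegree_eq_and_monic h2 hmon
  refine ⟨q, hq3, ?_⟩
  rw [← eval_map, hq1]
  exact MulSemiringAction.eval_charpoly _ _

theorem exists_quo (G : Subgroup (L ≃ₐ[k] L)) [Finite G] (σ : G →* Equiv.Perm (Fin n))
    (F : Fin n → IntermediateField k L)
    (hF : ∀ (g : G) i, ∀ z ∈ F i, (g : L ≃ₐ[k] L) z ∈ F (σ g i)) (i : Fin n) (w : Place k L)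
    (h : ∃ z ∈ F i, w.ord z ≠ 0) : ∃ y ∈ Quo G σ F i, w.ord y ≠ 0 := by
  obtain ⟨z, hz, hz0⟩ := h
  by_contra hcon
  push Not at hcon
  have h1 : ∀ a : Quo G σ F i, w.Reg (algebraMap (Quo G σ F i) L a) := fun a =>
    Or.inr (hcon _ a.2).ge
  have h2 : w.Reg z := w.reg_of_isIntegral h1 (isIntegral_quo G σ F hF i z hz)
  have h3 : w.Reg z⁻¹ := w.reg_of_isIntegral h1 (isIntegral_quo G σ F hF i z⁻¹ (inv_mem hz))
  have hz1 : z ≠ 0 := by
    rintro rfl
    exact hz0 w.ord_zero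
  have h4 := (w.reg_iff hz1).1 h2
  have h5 := (w.reg_iff (inv_ne_zero hz1)).1 h3
  rw [w.ord_inv] at h5
  omega

end

open scoped Classical in
theorem main (h1 : S_DET.{u, v}) (h2 : S_ORB) (h3 : S_EQV.{u}) : S_REGLOG.{u, v} := by
  intro k L _ _ _ _ _ n F _ G _ σ hF N m e hN hfree w h ζ he hζ hchar he1 x b hxQ hxt hxσ hbQ
    hb0 hgood D hDlog hDh
  have he0 : 0 < e := he ▸ orderOf_pos h
  have hζ0 : ζ ≠ 0 := hζ.ne_zero he0.ne'
  have hc : IsChar w (h : L ≃ₐ[k] L) ζ := hchar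
  have hordr : ∀ (r : ℕ) (z : L), w.ord (((h ^ r : G) : L ≃ₐ[k] L) z) = w.ord z := fun r z =>
    (hc.pow hζ0 r).ord_eq (pow_ne_zero _ hζ0) z
  have hord : ∀ z : L, w.ord ((h : L ≃ₐ[k] L) z) = w.ord z := fun z => hc.ord_eq hζ0 z
  let τ : Equiv.Perm (Fin n) := σ h
  have hτr : ∀ (r : ℕ) i, σ (h ^ r) i = (τ ^ r) i := fun r i => by rw [map_pow]
  let U : Set (Fin n) := {i | ∃ z ∈ F i, w.ord z ≠ 0}
  -- `U` is stable
  have hUg0 : ∀ (r : ℕ) i, i ∈ U → σ (h ^ r) i ∈ U := by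
    rintro r i ⟨z, hz, hz0⟩
    exact ⟨((h ^ r : G) : L ≃ₐ[k] L) z, hF _ i z hz, by rwa [hordr]⟩
  have hUg : ∀ (r : ℕ) i, i ∈ U ↔ σ (h ^ r) i ∈ U := by
    intro r i
    refine ⟨hUg0 r i, ?_⟩
    rintro ⟨z, hz, hz0⟩
    refine ⟨((h ^ r : G)⁻¹ : L ≃ₐ[k] L) z, ?_, ?_⟩
    · have h4 := hF ((h ^ r : G)⁻¹) _ z hz
      rw [← Equiv.Perm.mul_apply, ← map_mul, inv_mul_cancel, map_one] at h4
      exact h4
    · have h4 := hordr r (((h ^ r : G)⁻¹ : L ≃ₐ[k] L) z)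
      have h5 : ((h ^ r : G) : L ≃ₐ[k] L) (((h ^ r : G)⁻¹ : L ≃ₐ[k] L) z) = z := by
        rw [← AlgEquiv.mul_apply, mul_inv_cancel]; rfl
      rw [h5] at h4
      rwa [← h4]
  have hU : ∀ i, i ∈ U ↔ τ i ∈ U := by
    intro i
    have := hUg 1 i
    rwa [pow_one] at this
  -- the uniformizers
  let Γ := Subgroup.zpowers h
  have hΓ : ∀ g : Γ, ∃ r : ℕ, (g : G) = h ^ r := by
    intro g
    have h4 := mem_powers_iff_mem_zpowers.2 g.2
    obtain ⟨r, hr⟩ := h4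
    exact ⟨r, hr.symm⟩
  obtain ⟨u, hu1, hu2⟩ := h3 Γ n (σ.comp Γ.subtype) L
    (fun i a => a ∈ Quo G σ F i ∧ (i ∈ U → IsUnif w (Quo G σ F i) a) ∧ (i ∉ U → a = 1))
    (by
      rintro g i a ⟨ha, ha1, ha2⟩
      obtain ⟨r, hr⟩ := hΓ g
      have e1 : (σ.comp Γ.subtype) g i = σ (h ^ r) i := by
        rw [MonoidHom.comp_apply, Subgroup.coe_subtype, hr]
      have e2 : g • a = ((h ^ r : G) : L ≃ₐ[k] L) a := by
        have : g • a = ((g : G) : L ≃ₐ[k] L) a := rfl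
        rw [this, hr]
      rw [e1, e2]
      refine ⟨quo_smul G σ F hF _ i a ha, fun hi => ?_, fun hi => ?_⟩
      · obtain ⟨h4, h5⟩ := ha1 ((hUg r i).2 hi)
        refine ⟨by rwa [hordr], fun z hz hz0 => ?_⟩
        rw [hordr]
        have h6 := quo_smul G σ F hF ((h ^ r : G)⁻¹) _ z hz
        rw [← Equiv.Perm.mul_apply, ← map_mul, inv_mul_cancel, map_one] at h6
        have h7 := h5 _ h6 ((map_ne_zero_iff _ (AlgEquiv.injective _)).2 hz0)
        have h8 := hordr r (((((h ^ r : G)⁻¹ : G)) : L ≃ₐ[k] L) z)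
        have h9 : ((h ^ r : G) : L ≃ₐ[k] L) (((((h ^ r : G)⁻¹ : G)) : L ≃ₐ[k] L) z) = z := by
          rw [← AlgEquiv.mul_apply, ← Subgroup.coe_mul, mul_inv_cancel]; rfl
        rw [h9] at h8
        rwa [h8]
      · rw [ha2 (fun h4 => hi ((hUg r i).1 h4)), map_one])
    (by
      rintro i a ⟨ha, -, -⟩ g hg
      exact fix_of_quo G σ F (g : G) i a ha hg)
    (by
      intro i
      by_cases hi : i ∈ U
      · obtain ⟨a, ha, ha'⟩ := exists_unif w _ (exists_quo G σ F hF i w hi)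
        exact ⟨a, ha, fun _ => ha', fun h4 => absurd hi h4⟩
      · exact ⟨1, one_mem _, fun h4 => absurd h4 hi, fun _ => rfl⟩)
  have huh : ∀ i, (h : L ≃ₐ[k] L) (u i) = u (τ i) := fun i =>
    hu2 ⟨h, Subgroup.mem_zpowers h⟩ i
  have huU : ∀ i ∈ U, IsUnif w (Quo G σ F i) (u i) := fun i hi => (hu1 i).2.1 hi
  have hu01 : ∀ i, i ∉ U → u i = 1 := fun i hi => (hu1 i).2.2 hi
  have hu0 : ∀ i, u i ≠ 0 := by
    intro i h4
    by_cases hi : i ∈ U
    · have h5 := (huU i hi).1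
      rw [h4, w.ord_zero] at h5
      omega
    · rw [hu01 i hi] at h4
      exact one_ne_zero h4
  have hx0 : ∀ i, x i ≠ 0 := fun i h4 => hxt i (by rw [h4]; exact isAlgebraic_zero)
  have hquo : ∀ i, ∀ z ∈ Quo G σ F i, z ∈ F i := fun i z hz => (IntermediateField.mem_inf.1 hz).1
  have hnU : ∀ i, i ∉ U → ∀ z ∈ F i, w.ord z = 0 := by
    intro i hi z hz
    by_contra hcon
    exact hi ⟨z, hz, hcon⟩
  -- the coordinates
  let z : Fin n → L := fun i => if i ∈ U then u i else x i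
  have hzU : ∀ i ∈ U, z i = u i := fun i hi => if_pos hi
  have hznU : ∀ i, i ∉ U → z i = x i := fun i hi => if_neg hi
  have hzh : ∀ i, (h : L ≃ₐ[k] L) (z i) = z (τ i) := by
    intro i
    by_cases hi : i ∈ U
    · rw [hzU i hi, hzU _ ((hU i).1 hi), huh]
    · rw [hznU i hi, hznU _ (fun h4 => hi ((hU i).2 h4)), hxσ]
  have hρ : ∀ i, ∃ ρ : L, (∀ d : Derivation k L L, d (x i) = ρ * d (z i)) ∧ (i ∉ U → ρ = 1) := by
    intro i
    by_cases hi : i ∈ U
    · have h4 : Transcendental k (⟨u i, hquo i _ (hu1 i).1⟩ : F i) := by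
        have h5 : Transcendental k (u i) :=
          w.transcendental_of_ord_ne (by have := (huU i hi).1; omega)
        intro h6
        exact h5 (h6.algebraMap (A := L))
      obtain ⟨r, -, hr⟩ := ratio' (K := L) h4 (⟨x i, hquo i _ (hxQ i)⟩ : F i)
      refine ⟨r, fun d => ?_, fun h5 => absurd hi h5⟩
      rw [hzU i hi]
      exact hr d
    · exact ⟨1, fun d => by rw [hznU i hi, one_mul], fun _ => rfl⟩
  choose ρ hρ1 hρ2 using hρ
  let M : Matrix (Fin n) (Fin n) L := Matrix.of fun i j => D j (z i) / u i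
  have hdet : (Matrix.of fun i j => D j (x i)).det = (∏ i, ρ i * u i) * M.det := by
    rw [← Matrix.det_mul_column]
    congr 1
    ext i j
    simp only [M, Matrix.of_apply]
    rw [hρ1 i (D j), mul_assoc, mul_div_cancel₀ _ (hu0 i)]
  have hM : ∀ i j, Ge w 0 (M i j) := by
    intro i j
    simp only [M, Matrix.of_apply]
    by_cases hi : i ∈ U
    · rw [hzU i hi]
      exact hDlog j (u i)
    · rw [hznU i hi, hu01 i hi, div_one]
      have h4 : Ge w 0 (D j (x i) / x i) := hDlog j (x i)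
      have h5 : Ge w 0 (x i) := Or.inr (hnU i hi _ (hquo i _ (hxQ i))).ge
      have h6 := h4.mul h5
      rwa [div_mul_cancel₀ _ (hx0 i), add_zero] at h6
  have hMh : ∀ i j, (h : L ≃ₐ[k] L) (M i j) = M (τ i) j := by
    intro i j
    simp only [M, Matrix.of_apply]
    rw [map_div₀, hDh, hzh, huh]
  -- the orders
  let β : Fin n → ℤ := fun i => w.ord (b i * (ρ i * u i) ^ m)
  have hβU : ∀ i ∈ U, (m : ℤ) * w.ord (u i) ≤ N * β i ∧ (m : ℤ) ≤ β i := by
    intro i hi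
    refine hgood i w (u i) (hu1 i).1 (huU i hi).1 (huU i hi).2 (ρ i) fun d => ?_
    rw [← hzU i hi]
    exact hρ1 i d
  have hβn : ∀ i, i ∉ U → β i = 0 := by
    intro i hi
    simp only [β]
    rw [hρ2 i hi, hu01 i hi, one_mul, one_pow, mul_one]
    exact hnU i hi _ (hquo i _ (hbQ i))
  have hβ0 : ∀ i, 0 ≤ β i := by
    intro i
    by_cases hi : i ∈ U
    · have := (hβU i hi).2
      omega
    · rw [hβn i hi]
  have hprod : (∏ i, b i) * (Matrix.of fun i j => D j (x i)).det ^ m =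
      (∏ i, b i * (ρ i * u i) ^ m) * M.det ^ m := by
    rw [hdet, mul_pow, ← Finset.prod_pow, ← mul_assoc, ← Finset.prod_mul_distrib]
  rw [hprod]
  have hGβ : Ge w (∑ i, β i) (∏ i, b i * (ρ i * u i) ^ m) :=
    Ge.prod _ _ _ fun i _ => Or.inr le_rfl
  by_cases hm : m = 0
  · subst hm
    rw [pow_zero, mul_one]
    refine hGβ.mono ?_
    rw [Nat.cast_zero, zero_mul]
    exact Finset.sum_nonneg fun i _ => hβ0 i
  by_cases hM0 : M.det = 0
  · left
    rw [hM0, zero_pow hm, mul_zero]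
  have hd0 : 0 ≤ w.ord M.det := (ge_det w M hM).resolve_left hM0
  have hGM : Ge w (w.ord M.det) M.det := Or.inr le_rfl
  refine (hGβ.mul (hGM.pow m)).mono ?_
  by_cases he2 : e = 1
  · obtain ⟨i, hi⟩ := he1 he2
    have h4 := (hβU i hi).2
    have h5 : β i ≤ ∑ i, β i := Finset.single_le_sum (fun i _ => hβ0 i) (Finset.mem_univ i)
    have h6 : 0 ≤ (m : ℤ) * w.ord M.det := by positivity
    rw [he2, Nat.cast_one, mul_one]
    linarith
  -- the general case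
  have hh1 : h ≠ 1 := by
    rintro rfl
    rw [orderOf_one] at he
    exact he2 he.symm
  have hfix1 : ∀ i, i ∉ U → ∀ r : ℕ, σ (h ^ r) i = i → ∀ y ∈ F i,
      ((h ^ r : G) : L ≃ₐ[k] L) y = y := by
    intro i hi r hr y hy
    by_contra hcon
    have hy0 : y ≠ 0 := by
      rintro rfl
      exact hcon (map_zero _)
    have h4 := hc.pow hζ0 r y hy0
    rw [hnU i hi y hy, zpow_zero, map_one, one_mul, zero_add] at h4
    have h5 : ((h ^ r : G) : L ≃ₐ[k] L) y ∈ F i := by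
      have := hF (h ^ r) i y hy
      rwa [hr] at this
    have h6 := h4.resolve_left (sub_ne_zero.2 hcon)
    have h7 := hnU i hi _ (sub_mem h5 hy)
    have h8 : w.ord (((h : L ≃ₐ[k] L) ^ r) y - y) = w.ord (((h ^ r : G) : L ≃ₐ[k] L) y - y) := rfl
    omega
  have hhas : HasFix G σ F h := by
    intro i r hr
    by_cases hi : i ∈ U
    · right
      obtain ⟨y, hy, hy0⟩ := hi
      obtain ⟨a, q, hq⟩ := exists_over (K := F i) w ⟨⟨y, hy⟩, hy0⟩
      refine ⟨q, fun y1 y2 h4 => ?_⟩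
      have h5 : (a : ℤ) * q.ord y2 = a * q.ord y1 := by
        rw [← hq.2, ← hq.2]
        change w.ord (y2 : L) = w.ord (y1 : L)
        rw [← h4, hordr]
      exact mul_left_cancel₀ (by have := hq.1; omega) h5
    · exact Or.inl (hfix1 i hi r hr)
  have hf := hfree h hh1 hhas
  have hA := h2 n N e m τ U (fun i => w.ord (u i)) β hU
    (fun i => by
      change w.ord (u (τ i)) = w.ord (u i)
      rw [← huh, hord]) hβ0 (fun i hi => (hβU i hi).1)
    (fun i hi r hr h4 => hc.le he0 hζ hr (huU i hi).1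
      (fix_of_quo G σ F (h ^ r) i (u i) (hu1 i).1 (by rw [hτr, h4])))
  have hB := h1 k L n e w h ζ τ M he0 hζ (fun a y hy hhy => hc.dvd he0 hζ a y hy hhy)
    (by
      change (σ h) ^ e = 1
      rw [← map_pow, ← he, pow_orderOf_eq_one, map_one]) hMh hM hM0
  have hcount : {i : Fin n | ∀ r : ℕ, i ≤ (τ ^ r) i}.ncard ≤
      {i : Fin n | i ∈ U ∧ ∀ r : ℕ, i ≤ (τ ^ r) i}.ncard + fixDim G σ F h := by
    refine le_trans (Set.ncard_le_ncard ?_ (Set.toFinite _)) (Set.ncard_union_le _ _)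
    intro i hi
    by_cases h4 : i ∈ U
    · exact Or.inl ⟨h4, hi⟩
    · exact Or.inr ⟨fun r => by rw [hτr]; exact hi r, hfix1 i h4⟩
  set cA := {i : Fin n | i ∈ U ∧ ∀ r : ℕ, i ≤ (τ ^ r) i}.ncard
  set cc := {i : Fin n | ∀ r : ℕ, i ≤ (τ ^ r) i}.ncard
  have hNc : (N : ℤ) ≤ n - cc + cA := by omega
  set S := ∑ i, β i
  set d := w.ord M.det
  have hN0 : (0 : ℤ) < N := by omega
  have hm0 : (0 : ℤ) ≤ m := by omega
  have he3 : (0 : ℤ) ≤ e := by omega
  have e1 : (m : ℤ) * (e * (n - cc)) ≤ m * (2 * d) := mul_le_mul_of_nonneg_left hB hm0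
  have e2 : (m : ℤ) * (2 * d) ≤ m * (N * d) :=
    mul_le_mul_of_nonneg_left (mul_le_mul_of_nonneg_right (by omega) hd0) hm0
  have e3 : (m : ℤ) * e * N ≤ m * e * (n - cc + cA) :=
    mul_le_mul_of_nonneg_left hNc (by positivity)
  have e4 : (N : ℤ) * (m * e) ≤ N * (S + m * d) := by
    calc (N : ℤ) * (m * e) = m * e * N := by ring
      _ ≤ m * e * (n - cc + cA) := e3
      _ = m * (e * (n - cc)) + m * e * cA := by ring
      _ ≤ m * (N * d) + N * S := add_le_add (e1.trans e2) hA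
      _ = N * (S + m * d) := by ring
  exact le_of_mul_le_mul_left e4 hN0

end Pool.Agent.W391.PG.REGLOG

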